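import Pool.Agent.H41.AL.Final2
import Pool.Agent.H117.AL.STEPR
import Pool.Agent.H722.AL.StepC
import Pool.Agent.H400.AL.StepQ
import Pool.Agent.H686.AL.Factor
import Pool.Agent.H727.AG.Tail
import Pool.Agent.H111.AG.Stage
import Pool.Agent.H484.AG.Fix
import Pool.Agent.H215.AG.Class
import Pool.Agent.H331.AG.Cut2
import Pool.Agent.H501.AG.Run2
import Pool.Agent.H729.AG.GPart
import Pool.Agent.H233.AG.Parm2
import Pool.Agent.H634.AG.Fin2

set_option autoImplicit false

/-!
MP_dc7d7b_co: the correspondence packing number of a graph with maximum degree `Δ` is at most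
`(1 + o(1)) Δ`.
-/

namespace Pool.Agent.Results.MP_dc7d7b_co.AsymptoticDelta

open Pool.Agent.H41.CP Pool.Agent.H41.AL

/-- For every `ε > 0` there is `D₀` such that for every finite graph `G` with maximum degree
`Δ ≥ D₀`, the correspondence packing number of `G` is at most `(1 + ε) Δ`, and every `n`-fold
correspondence cover of `G` with `n ≥ (1 + ε) Δ` has a packing. -/
theorem result : ∀ ε : ℝ, 0 < ε → ∃ D₀ : ℕ,
    ∀ (V : Type) [Fintype V] (G : SimpleGraph V) [DecidableRel G.Adj], D₀ ≤ G.maxDegree →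
    (corrPackingNumber G : ℝ) ≤ (1 + ε) * G.maxDegree ∧
    ∀ n : ℕ, (1 + ε) * G.maxDegree ≤ n → ∀ C : Cover G n, C.HasPacking :=
  number_asymp (Pool.Agent.H634.AG.fin2 Pool.Agent.H331.AG.cut2 Pool.Agent.H686.AL.factor
    (Pool.Agent.H501.AG.run2
      (Pool.Agent.H111.AG.stage
        (Pool.Agent.H727.AG.tail Pool.Agent.H117.AL.stepr Pool.Agent.H722.AL.StepC.stepc
          Pool.Agent.H400.AL.stepq))
      (Pool.Agent.H215.AG.cls Pool.Agent.H484.AG.fix))
    Pool.Agent.H729.AG.gpart Pool.Agent.H233.AG.parm2)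

end Pool.Agent.Results.MP_dc7d7b_co.AsymptoticDelta
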