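import Pool.Agent.H41.CP.Main3

set_option autoImplicit false

/-!
MP_dc7d7b_co for maximum degree four and (without five-regular components) five.
-/

namespace Pool.Agent.Results.MP_dc7d7b_co.DegFourFive

open Pool.Agent.H41.CP

theorem mad_of_deg {V : Type} [Fintype V] (G : SimpleGraph V) [DecidableRel G.Adj]
    (hΔ : G.maxDegree ≤ 5)
    (hreg : ¬ ∃ S : Finset V, S.Nonempty ∧ (∀ v ∈ S, G.degree v = 5) ∧
      ∀ v ∈ S, ∀ u, G.Adj v u → u ∈ S) : MadLT G 5 := by
  classical
  intro S hS
  have h2 : {p : V × V | p.1 ∈ S ∧ p.2 ∈ S ∧ G.Adj p.1 p.2} =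
      (((S ×ˢ S).filter (fun p => G.Adj p.1 p.2) : Finset (V × V)) : Set (V × V)) := by
    ext p; simp [and_assoc]
  rw [h2, Set.ncard_coe_finset]
  have h3 : ((S ×ˢ S).filter (fun p => G.Adj p.1 p.2)).card = ∑ v ∈ S, dg G S v := sum_eq G S
  have hle : ∀ v, dg G S v ≤ G.degree v := by
    intro v
    rw [dg, nb, ← G.card_neighborFinset_eq_degree]
    refine Finset.card_le_card fun u hu => ?_
    rw [SimpleGraph.mem_neighborFinset]
    exact (Finset.mem_filter.1 hu).2
  have hle5 : ∀ v ∈ S, dg G S v ≤ 5 := fun v _ =>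
    (hle v).trans ((G.degree_le_maxDegree v).trans hΔ)
  have hlt : ∑ v ∈ S, dg G S v < ∑ v ∈ S, 5 := by
    refine Finset.sum_lt_sum hle5 ?_
    by_contra hcon
    push Not at hcon
    refine hreg ⟨S, hS, fun v hv => ?_, fun v hv u hvu => ?_⟩
    · exact le_antisymm ((G.degree_le_maxDegree v).trans hΔ) ((hcon v hv).trans (hle v))
    · by_contra hu
      have h5 := hcon v hv
      have hsub : nb G S v ⊆ (G.neighborFinset v).erase u := by
        intro x hx
        have hx' := Finset.mem_filter.1 hx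
        refine Finset.mem_erase.2 ⟨?_, ?_⟩
        · rintro rfl; exact hu hx'.1
        · rw [SimpleGraph.mem_neighborFinset]; exact hx'.2
      have hc := Finset.card_le_card hsub
      rw [Finset.card_erase_of_mem (by rw [SimpleGraph.mem_neighborFinset]; exact hvu),
        G.card_neighborFinset_eq_degree] at hc
      have hd := (G.degree_le_maxDegree v).trans hΔ
      rw [dg] at h5
      omega
  rw [h3]
  rw [Finset.sum_const, smul_eq_mul, mul_comm] at hlt
  exact_mod_cast hlt

/-- Let `G` be a finite graph whose maximum degree `Δ` is `4` or `5`; if `Δ = 5` assume that no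
connected component of `G` is `5`-regular (there is no nonempty set of vertices of degree five
closed under adjacency). Then the correspondence packing number of `G` is at most
`2⌈(Δ+1)/2⌉ = 6`. -/
theorem result (V : Type) [Fintype V] (G : SimpleGraph V) [DecidableRel G.Adj]
    (hΔ : G.maxDegree = 4 ∨ G.maxDegree = 5 ∧
      ¬ ∃ S : Finset V, S.Nonempty ∧ (∀ v ∈ S, G.degree v = 5) ∧
        ∀ v ∈ S, ∀ u, G.Adj v u → u ∈ S) :
    corrPackingNumber G ≤ 2 * ((G.maxDegree + 2) / 2) ∧ ∀ C : Cover G 6, C.HasPacking := by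
  have hmad : MadLT G 5 := by
    rcases hΔ with h | ⟨h, hreg⟩
    · refine mad_of_deg G (by omega) ?_
      rintro ⟨S, ⟨v, hv⟩, h5, -⟩
      have := G.degree_le_maxDegree v
      have := h5 v hv
      omega
    · exact mad_of_deg G h.le hreg
  have h6 : 2 * ((G.maxDegree + 2) / 2) = 6 := by
    rcases hΔ with h | ⟨h, -⟩ <;> rw [h]
  rw [h6]
  exact ⟨number_le_six G hmad, packs6 G hmad⟩

end Pool.Agent.Results.MP_dc7d7b_co.DegFourFive
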