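import Pool.Agent.H41.AUG.Final

set_option autoImplicit false

/-!
MP_dc7d7b_co: the correspondence packing number of a graph with maximum degree `Δ` is at most
`⌊φ Δ⌋ + 1`, where `φ` is the golden ratio.
-/

namespace Pool.Agent.Results.MP_dc7d7b_co.GoldenRatio

open Pool.Agent.H41.CP Pool.Agent.H41.AUG

/-- For every finite graph `G` with maximum degree `Δ`, the correspondence packing number of `G`
is at most `⌊φ Δ⌋ + 1`, `φ = (1 + √5) / 2`. More precisely, let `n` be a natural number with
`φ Δ < n`, or with `3 Δ < 2 n`, `Δ + 2 ≤ n` and `Δ (n + Δ + 4) < (n + 1) (n + 2)`. Then every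
`n`-fold correspondence cover of `G` has a packing, and so the correspondence packing number of
`G` is at most `n`. -/
theorem result (V : Type) [Fintype V] (G : SimpleGraph V) [DecidableRel G.Adj] :
    corrPackingNumber G ≤ ⌊Real.goldenRatio * G.maxDegree⌋₊ + 1 ∧
    ∀ n : ℕ, (Real.goldenRatio * G.maxDegree < n ∨
        (3 * G.maxDegree < 2 * n ∧ G.maxDegree + 2 ≤ n ∧
          G.maxDegree * (n + G.maxDegree + 4) < (n + 1) * (n + 2))) →
      corrPackingNumber G ≤ n ∧ ∀ C : Cover G n, C.HasPacking := by
  have key : ∀ n : ℕ, (Real.goldenRatio * G.maxDegree < n ∨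
        (3 * G.maxDegree < 2 * n ∧ G.maxDegree + 2 ≤ n ∧
          G.maxDegree * (n + G.maxDegree + 4) < (n + 1) * (n + 2))) →
      corrPackingNumber G ≤ n ∧ ∀ C : Cover G n, C.HasPacking := by
    intro n h
    have hn : 1 ≤ n := by
      rcases h with h | h
      · by_contra h0
        have h1 : n = 0 := by omega
        rw [h1] at h
        have h2 : (0 : ℝ) ≤ Real.goldenRatio * G.maxDegree :=
          mul_nonneg Real.goldenRatio_pos.le (Nat.cast_nonneg _)
        push_cast at h
        linarith
      · omega
    have hp : ∀ C : Cover G n, C.HasPacking := by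
      rcases h with h | ⟨h1, h2, h3⟩
      · exact packing_golden G n h
      · exact packing_of_maxDegree G n (Or.inr ⟨h1, h2, by exact_mod_cast h3⟩)
    exact ⟨number_le hn hp, hp⟩
  refine ⟨(key _ (Or.inl ?_)).1, key⟩
  exact_mod_cast Nat.lt_floor_add_one (Real.goldenRatio * G.maxDegree)

end Pool.Agent.Results.MP_dc7d7b_co.GoldenRatio
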